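import Mathlib
import Pool.Agent.Lib.helper26.Berge

namespace Pool.Agent.H.MP_2a9600_co

open Finset SimpleGraph

variable {V : Type} [Fintype V] [DecidableEq V] (G : SimpleGraph V) [DecidableRel G.Adj]

def cov (T : Finset (Sym2 V)) : Prop := ∀ v, ∃ s ∈ T, v ∈ s

instance : DecidablePred (cov (V := V)) := fun T => by unfold cov; infer_instance

def ec (i : ℕ) : ℕ := #{T ∈ powersetCard i G.edgeFinset | cov T}

def inc (C : Finset V) : Finset (Sym2 V) := {e ∈ G.edgeFinset | ∃ v ∈ C, v ∈ e}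

variable {G}

lemma mem_st {v : V} {e : Sym2 V} : e ∈ G.incidenceFinset v ↔ e ∈ G.edgeFinset ∧ v ∈ e := by
  simp [incidenceSet]

lemma st_sub (v : V) : G.incidenceFinset v ⊆ G.edgeFinset := fun _ h => (mem_st.1 h).1

lemma not_cov {T : Finset (Sym2 V)} (h : T ⊆ G.edgeFinset) :
    ¬ cov T ↔ ∃ v, T ⊆ G.edgeFinset \ G.incidenceFinset v := by
  unfold cov
  push Not
  exact exists_congr fun v => ⟨fun k e he => mem_sdiff.2 ⟨h he, fun c => k e he (mem_st.1 c).2⟩,
    fun k e he c => (mem_sdiff.1 (k he)).2 (mem_st.2 ⟨h he, c⟩)⟩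

lemma card_co (v : V) : #(G.edgeFinset \ G.incidenceFinset v) + G.degree v = #G.edgeFinset := by
  rw [← card_incidenceFinset_eq_degree, card_sdiff_add_card_eq_card (st_sub v)]

lemma ec_top (hd : ∀ v, 2 ≤ G.degree v) {i : ℕ} (hi : #G.edgeFinset ≤ i + 1) :
    ec G i = (#G.edgeFinset).choose i := by
  rw [ec, filter_true_of_mem, card_powersetCard]
  intro T hT
  rw [mem_powersetCard] at hT
  by_contra c
  obtain ⟨v, hv⟩ := (not_cov hT.1).1 c
  have := card_le_card hv
  have := card_co (G := G) v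
  have := hd v
  omega

lemma two_st {u v : V} (h : u ≠ v) {e : Sym2 V} (hu : u ∈ e) (hv : v ∈ e) : e = s(u, v) :=
  (Sym2.mem_and_mem_iff h).1 ⟨hu, hv⟩

lemma st_ne (hd : ∀ v, 2 ≤ G.degree v) {u v : V} (h : u ≠ v) :
    ¬ G.incidenceFinset u ⊆ G.incidenceFinset v := fun k => by
  have := card_le_card (show G.incidenceFinset u ⊆ {s(u, v)} from fun e he =>
    mem_singleton.2 (two_st h (mem_st.1 he).2 (mem_st.1 (k he)).2))
  rw [card_incidenceFinset_eq_degree, card_singleton] at this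
  have := hd u; omega

lemma ec_two (hd : ∀ v, 2 ≤ G.degree v) {i : ℕ} (hi : #G.edgeFinset = i + 2) :
    ec G i + #{v | G.degree v = 2} = (#G.edgeFinset).choose i := by
  rw [ec, ← card_powersetCard, ← card_filter_add_card_filter_not (s := powersetCard _ _) cov]
  congr 1
  refine card_nbij (fun v => G.edgeFinset \ G.incidenceFinset v) (fun v hv => ?_)
    (fun u _ v _ e => ?_) fun T hT => ?_
  · have := card_co (G := G) v
    simp only [coe_filter, mem_univ, true_and, Set.mem_setOf_eq, mem_powersetCard] at hv ⊢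
    exact ⟨⟨sdiff_subset, by omega⟩, (not_cov sdiff_subset).2 ⟨v, Subset.rfl⟩⟩
  · by_contra n
    refine st_ne hd n fun x hx => ?_
    by_contra c
    have := Finset.ext_iff.1 e x
    simp only [mem_sdiff, st_sub u hx, hx, c] at this
    simp at this
  · simp only [coe_filter, Set.mem_setOf_eq, mem_powersetCard] at hT
    obtain ⟨v, hv⟩ := (not_cov hT.1.1).1 hT.2
    have := card_le_card hv
    have := card_co (G := G) v
    have := hd v
    exact ⟨v, by simp; omega, (eq_of_subset_of_card_le hv (by omega)).symm⟩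

lemma cov_of (hd : ∀ v, 2 ≤ G.degree v) {f : V → V} (h1 : ∀ v, f (f v) = v)
    (h2 : ∀ v, f v ≠ v → G.Adj v (f v)) :
    ∃ i, ec G i ≠ 0 ∧ 2 * i ≤ Fintype.card V + #{v | f v = v} := by
  choose g hg using fun v => (G.degree_pos_iff_exists_adj v).1 (by have := hd v; omega)
  refine ⟨_, card_ne_zero.2 ⟨image (fun v => s(v, g v)) {v | f v = v} ∪
    image (fun v => s(v, f v)) {v | ¬ f v = v}, mem_filter.2 ⟨mem_powersetCard.2 ⟨?_, rfl⟩,
    fun v => ?_⟩⟩, ?_⟩
  · intro e he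
    simp only [mem_union, mem_image, mem_filter, mem_univ, true_and] at he
    rcases he with ⟨v, -, rfl⟩ | ⟨v, hv, rfl⟩
    · simpa using hg v
    · simpa using h2 v hv
  · by_cases c : f v = v
    · exact ⟨s(v, g v), mem_union_left _ (mem_image_of_mem _ (by simpa)), by simp⟩
    · exact ⟨s(v, f v), mem_union_right _ (mem_image_of_mem _ (by simpa)), by simp⟩
  · have a1 := card_union_le (image (fun v => s(v, g v)) {v | f v = v})
      (image (fun v => s(v, f v)) {v | ¬ f v = v})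
    have a2 := card_image_le (s := {v | f v = v}) (f := fun v => s(v, g v))
    have a3 := mul_card_image_le_card (f := fun v => s(v, f v)) {v | ¬ f v = v} 2 (by
      intro b hb
      obtain ⟨v, hv, rfl⟩ := mem_image.1 hb
      have hv : ¬ f v = v := by simpa using hv
      rw [← card_pair (Ne.symm hv)]
      refine card_le_card fun x => ?_
      simp only [mem_insert, mem_singleton, mem_filter, mem_univ, true_and]
      rintro (rfl | rfl)
      · exact ⟨hv, rfl⟩
      · rw [h1]; exact ⟨Ne.symm hv, Sym2.eq_swap⟩)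
    have a4 := card_filter_add_card_filter_not (s := univ) fun v => f v = v
    rw [card_univ] at a4
    omega

lemma sum_deg (C : Finset V) : ∑ v ∈ C, G.degree v = ∑ e ∈ inc G C, #{v ∈ C | v ∈ e} := by
  simp only [card_filter]
  rw [sum_comm]
  refine sum_congr rfl fun v hv => ?_
  rw [← card_filter, ← card_incidenceFinset_eq_degree]
  congr 1; ext e
  simp only [mem_st, inc, mem_filter]
  exact ⟨fun h => ⟨⟨h.1, v, hv, h.2⟩, h.2⟩, fun h => ⟨h.1.1, h.2⟩⟩

lemma le_two (C : Finset V) (a b : V) : {v ∈ C | v ∈ s(a, b)} ⊆ {a, b} := fun v => by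
  simp only [mem_filter, Sym2.mem_iff, mem_insert, mem_singleton]; tauto

lemma sum_lt (hc : G.Connected) {C : Finset V} {x y : V} (hx : x ∈ C) (hy : y ∉ C) :
    ∑ v ∈ C, G.degree v < 2 * #(inc G C) := by
  obtain ⟨p⟩ := hc x y
  obtain ⟨d, -, h1, h2⟩ := p.exists_boundary_dart C hx hy
  rw [sum_deg, mul_comm, ← smul_eq_mul, ← sum_const]
  refine sum_lt_sum (fun e _ => ?_) ⟨s(d.fst, d.snd), mem_filter.2 ⟨by simpa using d.adj,
    d.fst, h1, by simp⟩, ?_⟩
  · induction e using Sym2.ind with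
    | _ a b => exact (card_le_card (le_two C a b)).trans card_le_two
  · refine lt_of_le_of_lt (card_le_card (t := {d.fst}) fun v => ?_) (by simp)
    simp only [mem_filter, Sym2.mem_iff, mem_singleton]
    rintro ⟨h, rfl | rfl⟩
    · rfl
    · exact (h2 h).elim

lemma inc_ge (hc : G.Connected) (hd : ∀ v, 2 ≤ G.degree v) {C : Finset V} {x y : V} (hx : x ∈ C)
    (hy : y ∉ C) : #C + 1 ≤ #(inc G C) := by
  have := sum_lt hc hx hy
  have := card_nsmul_le_sum C _ 2 fun v _ => hd v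
  rw [smul_eq_mul] at this; omega

lemma inc_disj {S C D : Finset V} (h : Disjoint C D) (hS : Disjoint D S)
    (hC : ∀ v ∈ C, ∀ w, G.Adj v w → w ∈ C ∨ w ∈ S) : Disjoint (inc G C) (inc G D) := by
  refine disjoint_left.2 fun e h1 h2 => ?_
  simp only [inc, mem_filter] at h1 h2
  obtain ⟨he, u, hu, eu⟩ := h1
  obtain ⟨-, v, hv, ev⟩ := h2
  have n : u ≠ v := fun c => disjoint_left.1 h hu (c ▸ hv)
  rw [two_st n eu ev] at he
  rcases hC u hu v (by simpa using he) with c | c
  · exact disjoint_left.1 h c hv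
  · exact disjoint_left.1 hS hv c

lemma barrier (hc : G.Connected) (hd : ∀ v, 2 ≤ G.degree v) {S : Finset V} {K : Finset (Finset V)}
    (h2 : 2 ≤ #K) (hK : ∀ C ∈ K, Odd #C ∧ Disjoint C S ∧ ∀ v ∈ C, ∀ w, G.Adj v w → w ∈ C ∨ w ∈ S)
    (dj : (K : Set (Finset V)).PairwiseDisjoint id) : S.Nonempty ∧
    Fintype.card V + #K ≤ #S + #G.edgeFinset ∧ (#S + #G.edgeFinset ≤ Fintype.card V + #K →
      (∀ C ∈ K, #(inc G C) = #C + 1) ∧ K.biUnion (inc G) = G.edgeFinset ∧
      ∑ C ∈ K, (#C + 1) = #G.edgeFinset) := by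
  have ne : ∀ C ∈ K, C.Nonempty := fun C h => card_pos.1 (hK C h).1.pos
  have hS : S.Nonempty := by
    obtain ⟨C, hC, D, hD, n⟩ := one_lt_card.1 h2
    obtain ⟨x, hx⟩ := ne C hC
    obtain ⟨y, hy⟩ := ne D hD
    obtain ⟨p⟩ := hc x y
    obtain ⟨d, -, h1, h2⟩ := p.exists_boundary_dart C hx (disjoint_right.1 (dj hC hD n) hy)
    exact ⟨_, ((hK C hC).2.2 _ h1 _ d.adj).resolve_left h2⟩
  obtain ⟨s, hs⟩ := hS
  have a1 : ∀ C ∈ K, #C + 1 ≤ #(inc G C) := fun C h =>
    inc_ge hc hd (ne C h).choose_spec (disjoint_right.1 (hK C h).2.1 hs)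
  let R := (S ∪ K.biUnion id)ᶜ
  have a2 : #R = 0 ∨ #R + 1 ≤ #(inc G R) := by
    rcases R.eq_empty_or_nonempty with e | ⟨x, hx⟩
    · simp [e]
    · exact Or.inr (inc_ge hc hd hx (y := s) (by simp [R, hs]))
  have a3 : #R + #S + ∑ C ∈ K, #C = Fintype.card V := by
    rw [← show #(K.biUnion id) = ∑ C ∈ K, #C from card_biUnion dj, add_assoc, ← card_union_of_disjoint, add_comm,
      card_add_card_compl]
    exact (disjoint_biUnion_right _ _ _).2 fun C h => (hK C h).2.1.symm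
  have a4 : #(K.biUnion (inc G)) = ∑ C ∈ K, #(inc G C) := card_biUnion fun C hC D hD n =>
    inc_disj (dj hC hD n) (hK D hD).2.1 (hK C hC).2.2
  have sub : K.biUnion (inc G) ⊆ G.edgeFinset := biUnion_subset.2 fun _ _ => filter_subset _ _
  have a5 : #(K.biUnion (inc G)) + #(inc G R) ≤ #G.edgeFinset := by
    rw [← card_union_of_disjoint]
    · exact card_le_card (union_subset sub (filter_subset _ _))
    · refine (disjoint_biUnion_left _ _ _).2 fun C h => inc_disj (S := S) ?_ ?_ (hK C h).2.2 <;>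
        refine disjoint_left.2 fun v hv => ?_ <;> simp only [R, mem_compl, mem_union, mem_biUnion,
          not_not, id] at *
      · exact Or.inr ⟨C, h, hv⟩
      · tauto
  have a6 := sum_le_sum a1
  have a7 : ∑ C ∈ K, (#C + 1) = ∑ C ∈ K, #C + #K := by simp [sum_add_distrib]
  refine ⟨⟨s, hs⟩, by omega, fun h => ⟨fun C hC => ?_, eq_of_subset_of_card_le sub (by omega),
    by omega⟩⟩
  exact ((sum_eq_sum_iff_of_le a1).1 (by omega) C hC).symm

lemma nine {α : Type} [DecidableEq α] {I A B W : Finset α} (hI : #I = 4) (hA : A ⊆ I) (hB : B ⊆ I)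
    (a2 : #A = 2) (b2 : #B = 2) (n : ¬ A ⊆ B) (hW : ∀ x ∈ A, x ∈ B → x ∉ W) :
    #{T ∈ I.powerset | (∃ x ∈ T, x ∈ A) ∧ (∃ x ∈ T, x ∈ B) ∧ ∃ x ∈ T, x ∈ W} ≤ 9 := by
  have c1 := card_filter_add_card_filter_not (s := I.powerset)
    fun T => (∃ x ∈ T, x ∈ A) ∧ (∃ x ∈ T, x ∈ B) ∧ ∃ x ∈ T, x ∈ W
  have c2 := card_union_add_card_inter (I \ A).powerset (I \ B).powerset
  have c3 := card_union_add_card_inter A B
  have c4 := card_sdiff_add_card_eq_card (union_subset hA hB)
  rw [show (I \ A).powerset ∩ (I \ B).powerset = (I \ (A ∪ B)).powerset by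
    ext T; simp only [sdiff_union_distrib, mem_inter, mem_powerset, subset_inter_iff],
    card_powerset, card_powerset, card_powerset,
    card_sdiff_of_subset hA, card_sdiff_of_subset hB, hI, a2, b2] at c2
  rw [card_powerset, hI] at c1
  have sub : (I \ A).powerset ∪ (I \ B).powerset ⊆ {T ∈ I.powerset |
      ¬ ((∃ x ∈ T, x ∈ A) ∧ (∃ x ∈ T, x ∈ B) ∧ ∃ x ∈ T, x ∈ W)} := by
    intro T
    simp only [mem_union, mem_powerset, mem_filter, subset_sdiff, Finset.disjoint_left]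
    rintro (h | h)
    · exact ⟨h.1, fun ⟨⟨x, a, b⟩, _⟩ => h.2 a b⟩
    · exact ⟨h.1, fun ⟨_, ⟨x, a, b⟩, _⟩ => h.2 a b⟩
  have c5 : #(A ∩ B) < 2 := a2 ▸ card_lt_card ⟨inter_subset_left, fun k => n fun x hx =>
    (mem_inter.1 (k hx)).2⟩
  rcases (A ∩ B).eq_empty_or_nonempty with e | ⟨x, hx⟩
  · have := card_le_card sub
    rw [e, card_empty] at c3
    rw [show #(I \ (A ∪ B)) = 0 by omega] at c2
    omega
  · have := card_pos.2 ⟨x, hx⟩
    rw [mem_inter] at hx
    have := card_lt_card ((ssubset_iff_of_subset sub).2 ⟨{x}, by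
      simp [hA hx.1, hW x hx.1 hx.2], by simp [hx.1, hx.2]⟩)
    rw [show #(I \ (A ∪ B)) = 1 by omega] at c2
    omega

lemma final (hc : G.Connected) (hd : ∀ v, 2 ≤ G.degree v) {S : Finset V} {K : Finset (Finset V)}
    (h2 : 2 ≤ #K) (hK : ∀ C ∈ K, Odd #C ∧ Disjoint C S ∧ ∀ v ∈ C, ∀ w, G.Adj v w → w ∈ C ∨ w ∈ S)
    (dj : (K : Set (Finset V)).PairwiseDisjoint id)
    (h : #S + #G.edgeFinset ≤ Fintype.card V + #K) {a : ℕ} (h1 : #G.edgeFinset = 2 * a)
    (h3 : #{v | G.degree v = 2} = a) : #{T ∈ G.edgeFinset.powerset | cov T} < 3 ^ a := by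
  obtain ⟨⟨s, hs⟩, -, b⟩ := barrier hc hd h2 hK dj
  obtain ⟨b1, b2, b3⟩ := b h
  have ns : ∀ C ∈ K, s ∉ C := fun C h => disjoint_right.1 (hK C h).2.1 hs
  have d1 : ∀ C ∈ K, #C ≤ #{v ∈ C | G.degree v = 2} + 1 ∧
      #C + 1 ≤ 2 * #{v ∈ C | G.degree v = 2} := fun C hC => by
    obtain ⟨x, hx⟩ := card_pos.1 (hK C hC).1.pos
    have e1 := sum_lt hc hx (ns C hC)
    have e2 := card_filter_add_card_filter_not (s := C) fun v => G.degree v = 2
    have e3 := sum_filter_add_sum_filter_not C (fun v => G.degree v = 2) fun v => G.degree v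
    have e4 := card_nsmul_le_sum {v ∈ C | G.degree v = 2} _ 2 fun v _ => hd v
    have e5 := card_nsmul_le_sum {v ∈ C | ¬ G.degree v = 2} (fun v => G.degree v) 3 fun v hv => by
      have := hd v; have := (mem_filter.1 hv).2; omega
    have e6 := b1 C hC
    obtain ⟨k, hk⟩ := (hK C hC).1
    simp only [smul_eq_mul] at e4 e5
    refine ⟨by omega, ?_⟩
    by_cases c : k = 0
    · obtain ⟨y, rfl⟩ := card_eq_one.1 (show #C = 1 by omega)
      have : inc G {y} = G.incidenceFinset y := by ext e; rw [mem_st]; simp [inc]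
      rw [this, card_incidenceFinset_eq_degree, card_singleton] at e6
      rw [filter_singleton, if_pos e6]; simp
    · omega
  have d2 : ∑ C ∈ K, #{v ∈ C | G.degree v = 2} ≤ a := by
    rw [← card_biUnion (t := fun C => {v ∈ C | G.degree v = 2}) fun C hC D hD n =>
      disjoint_filter_filter (dj hC hD n), ← h3]
    exact card_le_card (biUnion_subset.2 fun C _ => monotone_filter_left _ (subset_univ _))
  have d3 := (sum_eq_sum_iff_of_le fun C hC => (d1 C hC).2).1 (le_antisymm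
    (sum_le_sum fun C hC => (d1 C hC).2) (by rw [← mul_sum]; omega))
  let good : Finset V → Finset (Finset (Sym2 V)) := fun C =>
    {T ∈ (inc G C).powerset | ∀ v ∈ C, ∃ x ∈ T, x ∈ G.incidenceFinset v}
  have st : ∀ C, ∀ v ∈ C, G.incidenceFinset v ⊆ inc G C := fun C v hv e he =>
    mem_filter.2 ⟨(mem_st.1 he).1, v, hv, (mem_st.1 he).2⟩
  have g1 : ∀ C ∈ K, #(good C) ≤ 3 ^ #{v ∈ C | G.degree v = 2} := fun C hC => by
    have e1 := d1 C hC
    have e2 := d3 C hC
    have e3 := b1 C hC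
    obtain ⟨k, hk⟩ := (hK C hC).1
    by_cases c : k = 0
    · rw [show #{v ∈ C | G.degree v = 2} = 1 by omega]
      obtain ⟨x, hx⟩ := card_pos.1 (show 0 < #C by omega)
      refine (card_le_card (t := (inc G C).powerset.erase ∅) fun T hT => ?_).trans (by
        rw [card_erase_of_mem (by simp), card_powerset, show #(inc G C) = 2 by omega]; rfl)
      obtain ⟨t1, t2⟩ := mem_filter.1 hT
      obtain ⟨e, he, -⟩ := t2 x hx
      exact mem_erase.2 ⟨ne_empty_of_mem he, t1⟩
    · have e4 : #{v ∈ C | G.degree v = 2} = 2 := by omega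
      rw [e4]
      obtain ⟨u, v, n, e5⟩ := card_eq_two.1 e4
      have hu := mem_filter.1 (e5 ▸ mem_insert_self u {v})
      have hv := mem_filter.1 (e5 ▸ mem_insert_of_mem (mem_singleton_self v) : v ∈ _)
      obtain ⟨w, hw, hw'⟩ := exists_mem_notMem_of_card_lt_card
        (show #{u, v} < #C by rw [card_pair n]; omega)
      refine le_trans (card_le_card fun T hT => ?_) (nine (show #(inc G C) = 4 by omega)
        (st C u hu.1) (st C v hv.1) (by simp [hu.2]) (by simp [hv.2]) (st_ne hd n)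
        (W := G.incidenceFinset w) fun x a b c => hw' (by
          simpa [two_st n (mem_st.1 a).2 (mem_st.1 b).2] using (mem_st.1 c).2))
      obtain ⟨t1, t2⟩ := mem_filter.1 hT
      exact mem_filter.2 ⟨t1, t2 u hu.1, t2 v hv.1, t2 w hw⟩
  let U := {T ∈ G.edgeFinset.powerset | ∀ C ∈ K, ∀ v ∈ C, ∃ x ∈ T, v ∈ x}
  have u1 : #U ≤ #(K.pi good) := by
    refine card_le_card_of_injOn (fun T C _ => T ∩ inc G C) (fun T hT => ?_) fun T hT T' hT' e => ?_
    · obtain ⟨t1, t2⟩ := mem_filter.1 hT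
      refine mem_pi.2 fun C hC => mem_filter.2 ⟨mem_powerset.2 inter_subset_right, fun v hv => ?_⟩
      obtain ⟨x, hx, hx'⟩ := t2 C hC v hv
      have := mem_st.2 ⟨mem_powerset.1 t1 hx, hx'⟩
      exact ⟨x, mem_inter.2 ⟨hx, st C v hv this⟩, this⟩
    · have k : ∀ {T T'}, T ∈ U → (∀ C ∈ K, T ∩ inc G C = T' ∩ inc G C) → T ⊆ T' :=
        fun hT e x hx => by
          obtain ⟨C, hC, h⟩ := mem_biUnion.1 (b2 ▸ mem_powerset.1 (mem_filter.1 hT).1 hx)
          exact (mem_inter.1 (e C hC ▸ mem_inter.2 ⟨hx, h⟩)).1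
      exact (k hT fun C hC => congrFun (congrFun e C) hC).antisymm
        (k hT' fun C hC => (congrFun (congrFun e C) hC).symm)
  rw [card_pi] at u1
  have u2 : {T ∈ G.edgeFinset.powerset | cov T} ⊆ U := fun T hT => mem_filter.2
    ⟨(mem_filter.1 hT).1, fun _ _ v _ => (mem_filter.1 hT).2 v⟩
  refine lt_of_lt_of_le (card_lt_card ((ssubset_iff_of_subset u2).2
    ⟨G.edgeFinset \ G.incidenceFinset s, mem_filter.2 ⟨mem_powerset.2 sdiff_subset,
      fun C hC v hv => ?_⟩, fun k => (not_cov sdiff_subset).2 ⟨s, Subset.rfl⟩ (mem_filter.1 k).2⟩))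
    (u1.trans ((prod_le_prod' g1).trans ?_))
  · obtain ⟨x, x1, x2⟩ := not_subset.1 (st_ne hd (show v ≠ s from fun e => ns C hC (e ▸ hv)))
    exact ⟨x, mem_sdiff.2 ⟨st_sub _ x1, x2⟩, (mem_st.1 x1).2⟩
  · rw [prod_pow_eq_pow_sum]; exact Nat.pow_le_pow_right (by omega) d2

end Pool.Agent.H.MP_2a9600_co
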