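import Mathlib
import Pool.Agent.H.MP_2a9600_co.A

namespace Pool.Agent.H.MP_2a9600_co

open Finset

def pr : Fin 5 → ℕ := ![2, 3, 5, 7, 11]

def mk : Sym2 (Fin 5) → ℕ := Sym2.lift ⟨fun a b => pr a * pr b, fun _ _ => mul_comm _ _⟩

def ct (F : Multiset ℕ) (i : ℕ) : ℕ := (F.powersetCard i).countP fun T => T.prod % 2310 = 0

lemma comp : ∀ F ∈ ((⊤ : SimpleGraph (Fin 5)).edgeFinset.val.map mk).powersetCard 6,
    ct F 5 ≠ 6 ∨ ct F 4 ≠ 12 ∨ ct F 3 ≠ 8 := by
  decide +kernel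

lemma cov_iff (T : Finset (Sym2 (Fin 5))) : cov T ↔ (T.val.map mk).prod % 2310 = 0 := by
  refine ⟨fun h => ?_, fun h v => ?_⟩
  · have : ∀ v, pr v ∣ (T.val.map mk).prod := fun v => by
      obtain ⟨s, h1, h2⟩ := h v
      refine Dvd.dvd.trans ?_ (Multiset.dvd_prod (Multiset.mem_map_of_mem _ h1))
      obtain ⟨w, rfl⟩ := Sym2.mem_iff_exists.1 h2
      exact Dvd.intro _ rfl
    have a0 : 2 ∣ _ := this 0
    have a1 : 3 ∣ _ := this 1
    have a2 : 5 ∣ _ := this 2
    have a3 : 7 ∣ _ := this 3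
    have a4 : 11 ∣ _ := this 4
    omega
  · have p : (pr v).Prime := by fin_cases v <;> simp [pr] <;> norm_num
    have d : pr v ∣ 2310 := by fin_cases v <;> simp [pr]
    obtain ⟨x, hx, hx'⟩ := p.prime.exists_mem_multiset_dvd (d.trans (Nat.dvd_of_mod_eq_zero h))
    obtain ⟨s, hs, rfl⟩ := Multiset.mem_map.1 hx
    refine ⟨s, hs, ?_⟩
    have : ∀ a b v : Fin 5, pr v ∣ pr a * pr b → v = a ∨ v = b := by decide
    induction s using Sym2.ind with
    | _ a b => simpa using this a b v hx'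

lemma ct_eq (F : Finset (Sym2 (Fin 5))) (i : ℕ) :
    #{T ∈ powersetCard i F | cov T} = ct (F.val.map mk) i := by
  rw [ct, Multiset.powersetCard_map, ← map_val_val_powersetCard, Multiset.countP_map,
    Multiset.filter_map, Multiset.card_map, card_def, filter_val]
  simp only [cov_iff, Function.comp]

lemma five : ∀ F ∈ powersetCard 6 (⊤ : SimpleGraph (Fin 5)).edgeFinset,
    #{T ∈ powersetCard 5 F | cov T} ≠ 6 ∨ #{T ∈ powersetCard 4 F | cov T} ≠ 12 ∨
      #{T ∈ powersetCard 3 F | cov T} ≠ 8 := fun F hF => by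
  simp only [ct_eq]
  refine comp _ ?_
  rw [Multiset.powersetCard_map, ← map_val_val_powersetCard]
  exact Multiset.mem_map_of_mem _ (Multiset.mem_map_of_mem _ hF)

end Pool.Agent.H.MP_2a9600_co
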